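import Pool.Agent.Helper58.Qip.Stmts

set_option autoImplicit false

/-!
Packet A for MP_5bf1c5_pr: entropy production controls the drift of the reversed walk.
-/

open Finset

namespace Pool.Agent.Helper82.Qip

open Pool.Agent.Helper58.Qip

lemma klbound {t m : ℝ} (ht : 0 ≤ t) (htm : t ≤ m) (hm : 1 ≤ m) :
    (t - 1) ^ 2 / (2 * m) ≤ t * Real.log t - t + 1 := by
  rcases ht.eq_or_lt with h0 | hpos
  · subst h0
    have h1 : ((0 : ℝ) - 1) ^ 2 / (2 * m) ≤ 1 := by
      rw [div_le_one (by positivity)]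
      linarith
    simpa using h1
  rcases le_total t 1 with h1 | h1
  · -- `log t ≥ (t - 1/t)/2`
    have hs : -Real.log t ≤ Real.sinh (-Real.log t) := by
      apply Real.self_le_sinh_iff.2
      have := Real.log_nonpos hpos.le h1
      linarith
    rw [Real.sinh_eq, neg_neg, Real.exp_neg, Real.exp_log hpos] at hs
    have h2 : (t - t⁻¹) / 2 ≤ Real.log t := by linarith
    have h3 : t * ((t - t⁻¹) / 2) ≤ t * Real.log t := mul_le_mul_of_nonneg_left h2 hpos.le
    have h4 : t * ((t - t⁻¹) / 2) = (t ^ 2 - 1) / 2 := by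
      field_simp
    have h5 : (t - 1) ^ 2 / (2 * m) ≤ (t - 1) ^ 2 / 2 := by
      apply div_le_div_of_nonneg_left (sq_nonneg _) (by norm_num) (by linarith)
    nlinarith
  · -- `-log (1 - s) ≥ s + s^2/2` with `s = 1 - 1/t`
    have hs0 : 0 ≤ 1 - t⁻¹ := by
      have := inv_le_one_of_one_le₀ h1
      linarith
    have hs1 : 1 - t⁻¹ < 1 := by
      have := inv_pos.2 hpos
      linarith
    have habs : |1 - t⁻¹| < 1 := by
      rw [abs_of_nonneg hs0]; exact hs1
    have hh := Real.hasSum_pow_div_log_of_abs_lt_one habs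
    have h2 := sum_le_hasSum (range 2) (fun i _ => by positivity) hh
    rw [sum_range_succ, sum_range_one, sub_sub_cancel, Real.log_inv, neg_neg] at h2
    have h3 : (1 - t⁻¹) + (1 - t⁻¹) ^ 2 / 2 ≤ Real.log t := by
      norm_num at h2
      linarith
    have h4 := mul_le_mul_of_nonneg_left h3 hpos.le
    have h5 : t * ((1 - t⁻¹) + (1 - t⁻¹) ^ 2 / 2) = t - 1 + (t - 1) ^ 2 / (2 * t) := by
      field_simp
    have h6 : (t - 1) ^ 2 / (2 * m) ≤ (t - 1) ^ 2 / (2 * t) := by
      apply div_le_div_of_nonneg_left (sq_nonneg _) (by linarith) (by linarith)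
    linarith

section

variable {V D : Type} [Fintype D] [Nonempty D]

/-- The entropy gap at a point. -/
noncomputable def gap (q : D → ℝ) : ℝ :=
  (∑ e, q e * Real.log (q e)) / (Fintype.card D : ℝ)
    - ((∑ e, q e) / (Fintype.card D : ℝ)) * Real.log ((∑ e, q e) / (Fintype.card D : ℝ))

lemma one_le_card : (1 : ℝ) ≤ (Fintype.card D : ℝ) := by
  exact_mod_cast Fintype.card_pos

lemma gap_bound (q : D → ℝ) (hq : ∀ e, 0 ≤ q e) :
    (∑ e, (q e - (∑ e, q e) / (Fintype.card D : ℝ)) ^ 2) / (Fintype.card D : ℝ) ≤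
      2 * (Fintype.card D : ℝ) * ((∑ e, q e) / (Fintype.card D : ℝ)) * gap q := by
  have hm : (1 : ℝ) ≤ (Fintype.card D : ℝ) := one_le_card
  set m : ℝ := (Fintype.card D : ℝ) with hmdef
  have hmpos : 0 < m := by linarith
  set Q : ℝ := (∑ e, q e) / m with hQ
  have hQ0 : 0 ≤ Q := div_nonneg (sum_nonneg fun e _ => hq e) hmpos.le
  have hsum : ∑ e, q e = m * Q := by
    rw [hQ]; field_simp
  have hle : ∀ e, q e ≤ m * Q := fun e => by
    rw [← hsum]
    exact single_le_sum (fun e _ => hq e) (mem_univ e)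
  rcases hQ0.eq_or_lt with h0 | hpos
  · have hz : ∀ e, q e = 0 := fun e => by
      apply le_antisymm _ (hq e)
      have := hle e
      rw [← h0, mul_zero] at this
      exact this
    rw [← h0]
    simp [hz]
  · -- termwise bound
    have hterm : ∀ e, (q e - Q) ^ 2 / (2 * m * Q) ≤
        q e * Real.log (q e) - q e * Real.log Q - q e + Q := by
      intro e
      have ht0 : 0 ≤ q e / Q := div_nonneg (hq e) hpos.le
      have htm : q e / Q ≤ m := by
        rw [div_le_iff₀ hpos]; exact hle e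
      have hk := klbound ht0 htm hm
      have hk2 := mul_le_mul_of_nonneg_left hk hpos.le
      have e1 : Q * ((q e / Q - 1) ^ 2 / (2 * m)) = (q e - Q) ^ 2 / (2 * m * Q) := by
        field_simp
      have e2 : Q * (q e / Q * Real.log (q e / Q) - q e / Q + 1)
          = q e * Real.log (q e) - q e * Real.log Q - q e + Q := by
        rcases (hq e).eq_or_lt with hz | hp
        · rw [← hz]; simp
        · rw [Real.log_div hp.ne' hpos.ne']
          field_simp
      rw [e1, e2] at hk2
      exact hk2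
    have hs := sum_le_sum fun e (_ : e ∈ (univ : Finset D)) => hterm e
    have hgap : ∑ e, (q e * Real.log (q e) - q e * Real.log Q - q e + Q) = m * gap q := by
      rw [sum_add_distrib, sum_sub_distrib, sum_sub_distrib, ← sum_mul, hsum, sum_const,
        card_univ, nsmul_eq_mul, ← hmdef]
      unfold gap
      rw [← hmdef, ← hQ]
      field_simp
      ring
    rw [hgap, ← sum_div, div_le_iff₀ (by positivity)] at hs
    rw [div_le_iff₀ hmpos]
    calc ∑ e, (q e - Q) ^ 2 ≤ m * gap q * (2 * m * Q) := hs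
      _ = 2 * m * Q * gap q * m := by ring

lemma gap_nonneg (q : D → ℝ) (hq : ∀ e, 0 ≤ q e) : 0 ≤ gap q := by
  have hm : (1 : ℝ) ≤ (Fintype.card D : ℝ) := one_le_card
  have hmpos : (0 : ℝ) < (Fintype.card D : ℝ) := by linarith
  have hQ0 : 0 ≤ (∑ e, q e) / (Fintype.card D : ℝ) :=
    div_nonneg (sum_nonneg fun e _ => hq e) hmpos.le
  have hb := gap_bound q hq
  have h1 : 0 ≤ (∑ e, (q e - (∑ e, q e) / (Fintype.card D : ℝ)) ^ 2) / (Fintype.card D : ℝ) :=
    div_nonneg (sum_nonneg fun e _ => sq_nonneg _) hmpos.le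
  rcases hQ0.eq_or_lt with h0 | hpos
  · have hsum : ∑ e, q e = 0 := by
      have := h0.symm
      rwa [div_eq_zero_iff, or_iff_left hmpos.ne'] at this
    have hz : ∀ e, q e = 0 := fun e =>
      (sum_eq_zero_iff_of_nonneg fun e _ => hq e).1 hsum e (mem_univ e)
    simp [gap, hz]
  · by_contra hneg
    push Not at hneg
    have : 2 * (Fintype.card D : ℝ) * ((∑ e, q e) / (Fintype.card D : ℝ)) * gap q < 0 :=
      mul_neg_of_pos_of_neg (by positivity) hneg
    linarith

/-- Cauchy-Schwarz at a point. -/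
lemma mean_bound (q g : D → ℝ) (hq : ∀ e, 0 ≤ q e) :
    |(∑ e, g e * (q e - (∑ e, q e) / (Fintype.card D : ℝ))) / (Fintype.card D : ℝ)| ≤
      √(2 * (Fintype.card D : ℝ) * gap q) *
        √(((∑ e, q e) / (Fintype.card D : ℝ)) * ((∑ e, g e ^ 2) / (Fintype.card D : ℝ))) := by
  have hm : (1 : ℝ) ≤ (Fintype.card D : ℝ) := one_le_card
  have hmpos : (0 : ℝ) < (Fintype.card D : ℝ) := by linarith
  have hgb := gap_bound q hq
  have hg0 := gap_nonneg q hq
  set m : ℝ := (Fintype.card D : ℝ) with hmdef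
  set Q : ℝ := (∑ e, q e) / m with hQ
  have hQ0 : 0 ≤ Q := div_nonneg (sum_nonneg fun e _ => hq e) hmpos.le
  rw [← Real.sqrt_mul (by positivity)]
  apply Real.abs_le_sqrt
  have hcs := sum_mul_sq_le_sq_mul_sq (univ : Finset D) g (fun e => q e - Q)
  have hE0 : 0 ≤ (∑ e, g e ^ 2) / m := div_nonneg (sum_nonneg fun e _ => sq_nonneg _) hmpos.le
  calc ((∑ e, g e * (q e - Q)) / m) ^ 2 = (∑ e, g e * (q e - Q)) ^ 2 / m ^ 2 := by rw [div_pow]
    _ ≤ ((∑ e, g e ^ 2) * ∑ e, (q e - Q) ^ 2) / m ^ 2 := by gcongr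
    _ = ((∑ e, g e ^ 2) / m) * ((∑ e, (q e - Q) ^ 2) / m) := by
        field_simp
    _ ≤ ((∑ e, g e ^ 2) / m) * (2 * m * Q * gap q) := by gcongr
    _ = 2 * m * gap q * (Q * ((∑ e, g e ^ 2) / m)) := by ring

end

section

variable {V D : Type} (G : LGraph V D)

/-- The bijection given by a label. -/
def nxtEquiv (e : D) : V ≃ V where
  toFun v := G.nxt v e
  invFun v := G.nxt v (G.flip e)
  left_inv v := G.nxt_nxt v e
  right_inv v := by
    have := G.nxt_nxt v (G.flip e)
    rwa [G.flip_flip] at this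

@[simp] lemma nxtEquiv_apply (e : D) (v : V) : nxtEquiv G e v = G.nxt v e := rfl

lemma finite_support_comp {q : V → ℝ} (h : q.support.Finite) (e : D) :
    (Function.support fun v => q (G.nxt v e)).Finite := by
  have : (Function.support fun v => q (G.nxt v e)) = (nxtEquiv G e) ⁻¹' q.support := by
    ext v; simp [Function.mem_support]
  rw [this]
  exact h.preimage (nxtEquiv G e).injective.injOn

lemma tsum_comp (q : V → ℝ) (e : D) : ∑' v, q (G.nxt v e) = ∑' v, q v :=
  (nxtEquiv G e).tsum_eq q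

lemma finite_support_of_imp {f g : V → ℝ} (h : f.support.Finite) (hfg : ∀ v, f v = 0 → g v = 0) :
    g.support.Finite := by
  apply h.subset
  intro v hv hf
  exact hv (hfg v hf)

variable [Fintype D]

lemma finite_support_all {q : V → ℝ} (h : q.support.Finite) :
    {v | ∃ e : D, q (G.nxt v e) ≠ 0}.Finite := by
  have : {v | ∃ e : D, q (G.nxt v e) ≠ 0} = ⋃ e : D, Function.support fun v => q (G.nxt v e) := by
    ext v; simp
  rw [this]
  exact Set.finite_iUnion fun e => finite_support_comp G h e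

end

theorem stmtA : Pool.Agent.Helper58.Qip.StmtA := by
  intro V D _ _ G q hq hfin g
  have hm : (1 : ℝ) ≤ (Fintype.card D : ℝ) := one_le_card
  have hmpos : (0 : ℝ) < (Fintype.card D : ℝ) := by linarith
  -- a finite set containing everything
  have hfin2 := finite_support_all G hfin
  set A : Finset V := hfin2.toFinset with hA
  have hAmem : ∀ v, v ∉ A → ∀ e, q (G.nxt v e) = 0 := by
    intro v hv e
    by_contra hne
    exact hv (hfin2.mem_toFinset.2 ⟨e, hne⟩)
  have havg0 : ∀ v, v ∉ A → G.avg q v = 0 := by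
    intro v hv
    simp [LGraph.avg, hAmem v hv]
  -- gaps
  set γ : V → ℝ := fun y => gap fun e => q (G.nxt y e) with hγ
  have hγ0 : ∀ y, 0 ≤ γ y := fun y => gap_nonneg _ fun e => hq _
  have hγz : ∀ y, y ∉ A → γ y = 0 := by
    intro y hy
    simp [hγ, gap, hAmem y hy]
  have hent : LGraph.ent (G.avg q) - LGraph.ent q = ∑ y ∈ A, γ y := by
    have h1 : LGraph.ent (G.avg q) = ∑ y ∈ A, Real.negMulLog (G.avg q y) := by
      unfold LGraph.ent
      apply tsum_eq_sum
      intro y hy
      rw [havg0 y hy, Real.negMulLog_zero]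
    have h2 : ∀ e : D, LGraph.ent q = ∑ y ∈ A, Real.negMulLog (q (G.nxt y e)) := by
      intro e
      unfold LGraph.ent
      rw [← tsum_comp G (fun v => Real.negMulLog (q v)) e]
      apply tsum_eq_sum
      intro y hy
      rw [hAmem y hy e, Real.negMulLog_zero]
    have h3 : LGraph.ent q = ∑ y ∈ A, (∑ e, Real.negMulLog (q (G.nxt y e))) /
        (Fintype.card D : ℝ) := by
      rw [← sum_div, sum_comm]
      rw [sum_congr rfl fun e _ => (h2 e).symm, sum_const, card_univ, nsmul_eq_mul]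
      field_simp
    rw [h1, h3, ← sum_sub_distrib]
    apply sum_congr rfl
    intro y _
    simp only [hγ, gap, LGraph.avg, Real.negMulLog, neg_mul, sum_neg_distrib]
    ring
  have hent0 : 0 ≤ LGraph.ent (G.avg q) - LGraph.ent q := by
    rw [hent]; exact sum_nonneg fun y _ => hγ0 y
  refine ⟨by linarith, ?_⟩
  -- the left side
  have hL : ∑' y, |mean (fun v e => g v e * (q (G.nxt v e) - G.avg q v)) y|
      = ∑ y ∈ A, |mean (fun v e => g v e * (q (G.nxt v e) - G.avg q v)) y| := by
    apply tsum_eq_sum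
    intro y hy
    simp [mean, hAmem y hy, havg0 y hy]
  have hR : ∑' y, G.avg q y * energy g y = ∑ y ∈ A, G.avg q y * energy g y := by
    apply tsum_eq_sum
    intro y hy
    rw [havg0 y hy, zero_mul]
  rw [hL, hR, hent]
  have hQ0 : ∀ y, 0 ≤ G.avg q y := fun y =>
    div_nonneg (sum_nonneg fun e _ => hq _) hmpos.le
  have hE0 : ∀ y, 0 ≤ energy g y := fun y =>
    div_nonneg (sum_nonneg fun e _ => sq_nonneg _) hmpos.le
  have hpt : ∀ y ∈ A, |mean (fun v e => g v e * (q (G.nxt v e) - G.avg q v)) y| ≤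
      √(2 * (Fintype.card D : ℝ) * γ y) * √(G.avg q y * energy g y) := by
    intro y _
    exact mean_bound (fun e => q (G.nxt y e)) (g y) fun e => hq _
  calc ∑ y ∈ A, |mean (fun v e => g v e * (q (G.nxt v e) - G.avg q v)) y|
      ≤ ∑ y ∈ A, √(2 * (Fintype.card D : ℝ) * γ y) * √(G.avg q y * energy g y) :=
        sum_le_sum hpt
    _ ≤ √(∑ y ∈ A, 2 * (Fintype.card D : ℝ) * γ y) * √(∑ y ∈ A, G.avg q y * energy g y) := by
        apply Real.sum_sqrt_mul_sqrt_le
        · intro y; have := hγ0 y; positivity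
        · intro y; exact mul_nonneg (hQ0 y) (hE0 y)
    _ = √(2 * (Fintype.card D : ℝ) * ∑ y ∈ A, γ y) * √(∑ y ∈ A, G.avg q y * energy g y) := by
        rw [← mul_sum]

end Pool.Agent.Helper82.Qip
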